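import Pool.Agent.Work.MP_1e13ac_W.PkFinal
import Pool.Agent.Work.MP_1e13ac_W.L1Main
import Pool.Agent.Work.MP_1e13ac_W.PkS0h
import Pool.Agent.Work.MP_1e13ac_W.PkS1
import Pool.Agent.Work.MP_1e13ac_W.PkS24
import Pool.Agent.Work.MP_1e13ac_W.PkS3
import Pool.Agent.Work.MP_1e13ac_W.PkS5
import Pool.Agent.Work.MP_1e13ac_W.PkS6
import Pool.Agent.Work.MP_1e13ac_W.PkS7

/-!
# 4-bisections of cubic graphs with isomorphic linear forest parts: all cubic graphs

Every finite cubic graph has a 4-bisection whose two parts induce isomorphic linear forests.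
-/

namespace Pool.Agent.Results.MP_1e13ac_co.AllCubicGraphs

/-- The conclusion of Q1 for the graph `G`: there is a bisection `S`, `Sᶜ` whose two induced
subgraphs have all components of at most four vertices, are linear forests (acyclic with maximum
degree at most two), and are isomorphic to each other. -/
def IsoBisection {V : Type} (G : SimpleGraph V) : Prop :=
  ∃ S : Set V,
    S.ncard = Sᶜ.ncard ∧
    (∀ c : (G.induce S).ConnectedComponent, c.supp.ncard ≤ 4) ∧
    (∀ c : (G.induce Sᶜ).ConnectedComponent, c.supp.ncard ≤ 4) ∧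
    (G.induce S).IsAcyclic ∧
    (∀ v, ((G.induce S).neighborSet v).ncard ≤ 2) ∧
    (G.induce Sᶜ).IsAcyclic ∧
    (∀ v, ((G.induce Sᶜ).neighborSet v).ncard ≤ 2) ∧
    Nonempty (G.induce S ≃g G.induce Sᶜ)

theorem result (V : Type) [Fintype V] [DecidableEq V] (G : SimpleGraph V) [DecidableRel G.Adj]
    (hG : G.IsRegularOfDegree 3) : IsoBisection G :=
  Pool.Agent.Work.MP_1e13ac_W.frozen_of Pool.Agent.Work.MP_1e13ac_W.stmt_L1
    Pool.Agent.Work.MP_1e13ac_W.stmt_S0 Pool.Agent.Work.MP_1e13ac_W.stmt_S1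
    Pool.Agent.Work.MP_1e13ac_W.stmt_S2 Pool.Agent.Work.MP_1e13ac_W.stmt_S3
    Pool.Agent.Work.MP_1e13ac_W.stmt_S4 Pool.Agent.Work.MP_1e13ac_W.stmt_S5
    Pool.Agent.Work.MP_1e13ac_W.stmt_S6 Pool.Agent.Work.MP_1e13ac_W.stmt_S7 V G hG

end Pool.Agent.Results.MP_1e13ac_co.AllCubicGraphs
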